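import Pool.Agent.W762.RK2.EXP4b
import Pool.Agent.L0h94.RZ.Defs

/-!
# Project RZ, module AVG: the average of `2 ^ corank` over the bits as a sum of symbols
-/

set_option autoImplicit false

namespace Pool.Agent.L0h51.RZ

open Finset Pool.Agent.W262.RK Pool.Agent.L0h94.RZ

open Pool.Agent.W762.RK2 (Pr Pr_prime nb nb_pf nb_ne_zero dvd_nb nb_inj nb_dvd nb_dvd_PP nb_eq Ts
  mem_Ts nb_eq_prod Dl Dl_mem Dl_inj lab Dl_lab lab_eq sum_Tup prod_Dl Sym_Dl lk)

/-! ### signs of bits -/

/-- the sign of a bit -/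
def sz (x : ZMod 2) : ℝ := if x = 0 then 1 else -1

lemma z2 (x : ZMod 2) : x = 0 ∨ x = 1 := by
  revert x
  decide

lemma sz_zero : sz 0 = 1 := by simp [sz]

lemma sz_one : sz 1 = -1 := by
  unfold sz
  rw [if_neg (by decide)]

lemma sz_add (a b : ZMod 2) : sz (a + b) = sz a * sz b := by
  rcases z2 a with ha | ha <;> rcases z2 b with hb | hb <;> subst ha <;> subst hb
  · simp [sz_zero]
  · simp [sz_zero]
  · simp [sz_zero]
  · have h : (1 : ZMod 2) + 1 = 0 := by decide
    rw [h, sz_zero, sz_one]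
    norm_num

lemma sz_sum {ι : Type*} (s : Finset ι) (f : ι → ZMod 2) :
    sz (∑ i ∈ s, f i) = ∏ i ∈ s, sz (f i) := by
  classical
  induction s using Finset.induction_on with
  | empty => simp [sz_zero]
  | insert a s ha ih => rw [sum_insert ha, prod_insert ha, sz_add, ih]

/-! ### the kernel -/

lemma mem_ind {E : Finset ℕ} {p : ℕ} : ind E p = 1 ↔ p ∈ E := by
  unfold ind
  by_cases h : p ∈ E
  · simp [h]
  · simp [h]

lemma sum_ind (P V : Finset ℕ) (hV : V ⊆ P) (e : ℕ → ZMod 2) :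
    ∑ q ∈ P, e q * ind V q = ∑ q ∈ V, e q := by
  unfold ind
  simp only [mul_ite, mul_one, mul_zero]
  rw [← sum_filter, filter_mem_eq_inter, inter_eq_right.2 hV]

lemma two_pow (P : Finset ℕ) (e : ℕ → ℕ → ZMod 2) :
    (2 : ℝ) ^ Module.finrank (ZMod 2) (KerE P e) =
      ∑ V ∈ P.powerset, if ∀ p ∈ P, ∑ q ∈ V, e p q = 0 then (1 : ℝ) else 0 := by
  classical
  set W := P.powerset.filter (fun V => ∀ p ∈ P, ∑ q ∈ V, e p q = 0) with hW
  have hmem : ∀ V : W, ind (V : Finset ℕ) ∈ KerE P e := by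
    intro V
    have h0 := mem_filter.1 V.2
    have h1 : (V : Finset ℕ) ⊆ P ∧ ∀ p ∈ P, ∑ q ∈ (V : Finset ℕ), e p q = 0 :=
      ⟨mem_powerset.1 h0.1, h0.2⟩
    refine ⟨fun p hp => ?_, fun p hp => ?_⟩
    · show ind _ p = 0
      unfold ind
      rw [if_neg fun h => hp (h1.1 h)]
    · show ∑ q ∈ P, e p q * ind _ q = 0
      rw [sum_ind P _ h1.1]
      exact h1.2 p hp
  set f : W → KerE P e := fun V => ⟨ind (V : Finset ℕ), hmem V⟩ with hf
  have hbij : Function.Bijective f := by
    constructor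
    · intro V V' h
      have h1 : ind (V : Finset ℕ) = ind (V' : Finset ℕ) := congrArg Subtype.val h
      refine Subtype.ext (Finset.ext fun p => ?_)
      rw [← mem_ind, ← mem_ind, h1]
    · rintro ⟨v, hv1, hv2⟩
      have hv : ind (P.filter (fun p => v p = 1)) = v := by
        funext p
        unfold ind
        by_cases hp : p ∈ P
        · rcases z2 (v p) with h | h
          · rw [if_neg, h]
            rw [mem_filter, h]
            exact fun h' => absurd h'.2 (by decide)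
          · rw [if_pos (mem_filter.2 ⟨hp, h⟩), h]
        · rw [if_neg, hv1 p hp]
          exact fun h' => hp (mem_filter.1 h').1
      have hsub : P.filter (fun p => v p = 1) ⊆ P := filter_subset _ _
      have hm : P.filter (fun p => v p = 1) ∈ W := by
        rw [hW, mem_filter, mem_powerset]
        refine ⟨hsub, fun p hp => ?_⟩
        rw [← sum_ind P _ hsub, hv]
        exact hv2 p hp
      refine ⟨⟨_, hm⟩, Subtype.ext ?_⟩
      show ind (P.filter (fun p => v p = 1)) = v
      exact hv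
  have e1 := Equiv.ofBijective f hbij
  have : Finite (KerE P e) := Finite.of_equiv _ e1
  have h1 : Nat.card (KerE P e) = 2 ^ Module.finrank (ZMod 2) (KerE P e) := by
    have h2 := Module.natCard_eq_pow_finrank (K := ZMod 2) (V := KerE P e)
    rw [Nat.card_zmod] at h2
    exact h2
  have h3 : Nat.card (KerE P e) = W.card := by
    rw [← Nat.card_congr e1, Nat.card_eq_fintype_card, Fintype.card_coe]
  rw [← sum_filter, sum_const, nsmul_eq_mul, mul_one, ← hW, ← h3, h1]
  push_cast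
  rfl

lemma sum_pow (P : Finset ℕ) (g : ℕ → ZMod 2 → ℝ) :
    ∑ E ∈ P.powerset, ∏ p ∈ P, g p (ind E p) = ∏ p ∈ P, (g p 1 + g p 0) := by
  classical
  rw [prod_add]
  refine sum_congr rfl fun E hE => ?_
  rw [mem_powerset] at hE
  rw [← prod_sdiff hE, mul_comm]
  congr 1
  · refine prod_congr rfl fun p hp => ?_
    rw [mem_ind.2 hp]
  · refine prod_congr rfl fun p hp => ?_
    have : ind E p = 0 := by
      unfold ind
      rw [if_neg (mem_sdiff.1 hp).2]
    rw [this]

lemma prod_one {P : Finset ℕ} (Q : ℕ → Prop) [DecidablePred Q] :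
    ∏ p ∈ P, (if Q p then (1 : ℝ) else 0) = if ∀ p ∈ P, Q p then 1 else 0 := by
  by_cases h : ∀ p ∈ P, Q p
  · rw [if_pos h]
    exact prod_eq_one fun p hp => by rw [if_pos (h p hp)]
  · rw [if_neg h]
    push Not at h
    obtain ⟨p, hp, hP⟩ := h
    exact prod_eq_zero hp (by rw [if_neg hP])

lemma en_ne {o : Bool} {cl : ℕ → Fin 3} {τ : ℕ → ZMod 2} {p q : ℕ} (h : p ≠ q) :
    en o cl τ p q = en o cl 0 p q := by
  unfold en
  rw [if_neg h, if_neg h]

lemma en_eq {o : Bool} {cl : ℕ → Fin 3} {τ : ℕ → ZMod 2} {p : ℕ} :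
    en o cl τ p p = τ p + (if o then lam p else 0) := by
  unfold en
  rw [if_pos rfl]

lemma sum_E (o : Bool) (P : Finset ℕ) (cl : ℕ → Fin 3) :
    ∑ E ∈ P.powerset, (2 : ℝ) ^ cork o P cl (ind E) =
      ∑ V ∈ P.powerset, ∏ p ∈ P \ V, (1 + sz (∑ q ∈ V, en o cl 0 p q)) := by
  classical
  unfold cork
  simp only [two_pow]
  rw [sum_comm]
  refine sum_congr rfl fun V hV => ?_
  rw [mem_powerset] at hV
  set c : ℕ → ZMod 2 := fun p => (if o then lam p else 0) + ∑ q ∈ V.erase p, en o cl 0 p q with hc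
  set g : ℕ → ZMod 2 → ℝ := fun p b => if p ∈ V then (if b + c p = 0 then 1 else 0) else
    if ∑ q ∈ V, en o cl 0 p q = 0 then 1 else 0 with hg
  have h1 : ∀ E ∈ P.powerset, (if ∀ p ∈ P, ∑ q ∈ V, en o cl (ind E) p q = 0 then (1 : ℝ) else 0) =
      ∏ p ∈ P, g p (ind E p) := by
    intro E _
    rw [← prod_one]
    refine prod_congr rfl fun p hp => ?_
    simp only [hg]
    by_cases hpV : p ∈ V
    · rw [if_pos hpV]
      refine if_congr ?_ rfl rfl
      rw [← add_sum_erase V _ hpV, en_eq, hc]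
      simp only
      rw [sum_congr rfl fun q hq => en_ne (ne_of_mem_erase hq).symm, add_assoc]
    · rw [if_neg hpV]
      refine if_congr ?_ rfl rfl
      rw [sum_congr rfl fun q hq => en_ne (fun h : p = q => hpV (h ▸ hq))]
  rw [sum_congr rfl h1, sum_pow, ← prod_sdiff hV]
  have h2 : ∏ p ∈ V, (g p 1 + g p 0) = 1 := by
    refine prod_eq_one fun p hp => ?_
    simp only [hg, if_pos hp]
    rcases z2 (c p) with h | h
    · rw [h, if_neg (by decide), if_pos (by decide)]
      norm_num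
    · rw [h, if_pos (by decide), if_neg (by decide)]
      norm_num
  rw [h2, mul_one]
  refine prod_congr rfl fun p hp => ?_
  simp only [hg, if_neg (mem_sdiff.1 hp).2]
  unfold sz
  split_ifs <;> norm_num

lemma expand (o : Bool) (P : Finset ℕ) (cl : ℕ → Fin 3) :
    ∑ E ∈ P.powerset, (2 : ℝ) ^ cork o P cl (ind E) =
      ∑ V ∈ P.powerset, ∑ X ∈ (P \ V).powerset, ∏ p ∈ X, ∏ q ∈ V, sz (en o cl 0 p q) := by
  rw [sum_E]
  refine sum_congr rfl fun V _ => ?_
  rw [prod_one_add]
  refine sum_congr rfl fun X _ => ?_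
  refine prod_congr rfl fun p _ => ?_
  rw [sz_sum]

/-! ### the labels -/

variable {z y : ℕ}

/-- the tuple of the classes -/
def S1 (l : Pr z y → Option (Fin 3 × Fin 3)) : Fin 3 → ℕ := Dl fun p => (l p).map Prod.fst

/-- the primes with second label `t` -/
def Vs (l : Pr z y → Option (Fin 3 × Fin 3)) (t : Fin 3) : Finset ℕ :=
  Ts fun p => decide ((l p).map Prod.snd = some t)

lemma mem_Vs (l : Pr z y → Option (Fin 3 × Fin 3)) (t : Fin 3) (p : Pr z y) :
    (p : ℕ) ∈ Vs l t ↔ (l p).map Prod.snd = some t := by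
  unfold Vs
  rw [mem_Ts, decide_eq_true_iff]

lemma prod_S1 (l : Pr z y → Option (Fin 3 × Fin 3)) : ∏ i, S1 l i = nb fun p => (l p).isSome := by
  unfold S1
  rw [prod_Dl]
  congr 1
  funext p
  cases l p <;> rfl

lemma pf_S1 (l : Pr z y → Option (Fin 3 × Fin 3)) :
    (∏ i, S1 l i).primeFactors = Ts fun p => (l p).isSome := by
  rw [prod_S1, nb_pf]

lemma Ts_ext {A B : Finset ℕ} (hA : ∀ p ∈ A, p ∈ PS z y) (hB : ∀ p ∈ B, p ∈ PS z y)
    (h : ∀ p : Pr z y, (p : ℕ) ∈ A ↔ (p : ℕ) ∈ B) : A = B := by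
  ext p
  constructor
  · intro hp
    exact (h ⟨p, hA p hp⟩).1 hp
  · intro hp
    exact (h ⟨p, hB p hp⟩).2 hp

lemma Ts_sub (b : Pr z y → Bool) : ∀ p ∈ Ts b, p ∈ PS z y := by
  intro p hp
  unfold Ts at hp
  rw [mem_map] at hp
  obtain ⟨q, _, hq⟩ := hp
  rw [← hq]
  exact q.2

lemma Tup_sub {s : Fin 3 → ℕ} (hs : s ∈ Tup (Fin 3) z y) :
    ∀ p ∈ (∏ i, s i).primeFactors, p ∈ PS z y := by
  rw [← Dl_lab hs, prod_Dl, nb_pf]
  exact Ts_sub _

lemma mem_pf_iff {s : Fin 3 → ℕ} (hs : s ∈ Tup (Fin 3) z y) (p : Pr z y) :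
    (p : ℕ) ∈ (∏ i, s i).primeFactors ↔ (lab s p).isSome := by
  conv_lhs => rw [← Dl_lab hs, prod_Dl, nb_pf]
  rw [mem_Ts]

open Classical in
/-- the labels of a triple `(s, V, X)` -/
noncomputable def mk (s : Fin 3 → ℕ) (V X : Finset ℕ) (p : Pr z y) : Option (Fin 3 × Fin 3) :=
  (lab s p).map fun i => (i, if (p : ℕ) ∈ V then 0 else if (p : ℕ) ∈ X then 2 else 1)

lemma sum_lab (F : (Fin 3 → ℕ) → Finset ℕ → Finset ℕ → ℝ) :
    ∑ s ∈ Tup (Fin 3) z y, ∑ V ∈ (∏ i, s i).primeFactors.powerset,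
      ∑ X ∈ ((∏ i, s i).primeFactors \ V).powerset, F s V X =
      ∑ l : Pr z y → Option (Fin 3 × Fin 3), F (S1 l) (Vs l 0) (Vs l 2) := by
  classical
  rw [sum_sigma', sum_sigma']
  symm
  refine sum_bij (fun l _ => ⟨⟨S1 l, Vs l 0⟩, Vs l 2⟩) ?_ ?_ ?_ (fun _ _ => rfl)
  · intro l _
    rw [mem_sigma, mem_sigma, mem_powerset, mem_powerset]
    refine ⟨⟨Dl_mem _, ?_⟩, ?_⟩
    · show Vs l 0 ⊆ (∏ i, S1 l i).primeFactors
      rw [pf_S1]
      intro p hp
      have h1 := Ts_sub _ p hp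
      have h2 := (mem_Vs l 0 ⟨p, h1⟩).1 hp
      refine (mem_Ts _ ⟨p, h1⟩).2 ?_
      cases h : l ⟨p, h1⟩ with
      | none => rw [h] at h2; simp at h2
      | some a => rfl
    · show Vs l 2 ⊆ (∏ i, S1 l i).primeFactors \ Vs l 0
      rw [pf_S1]
      intro p hp
      have h1 := Ts_sub _ p hp
      have h2 := (mem_Vs l 2 ⟨p, h1⟩).1 hp
      refine mem_sdiff.2 ⟨(mem_Ts _ ⟨p, h1⟩).2 ?_, fun h3 => ?_⟩
      · cases h : l ⟨p, h1⟩ with
        | none => rw [h] at h2; simp at h2
        | some a => rfl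
      · have h4 := (mem_Vs l 0 ⟨p, h1⟩).1 h3
        rw [h2] at h4
        exact absurd (Option.some.inj h4) (by decide)
  · intro l _ l' _ h
    have h1 : S1 l = S1 l' ∧ Vs l 0 = Vs l' 0 ∧ Vs l 2 = Vs l' 2 := by
      have e1 := congrArg Sigma.fst h
      have e2 : Vs l 2 = Vs l' 2 := congrArg (fun x => x.snd) h
      have e3 : S1 l = S1 l' := congrArg Sigma.fst e1
      have e4 : Vs l 0 = Vs l' 0 := congrArg (fun x => x.snd) e1
      exact ⟨e3, e4, e2⟩
    obtain ⟨h1, h2, h3⟩ := h1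
    have e1 := Dl_inj h1
    funext p
    have e2 : (l p).map Prod.fst = (l' p).map Prod.fst := congrFun e1 p
    have e3 : (l p).map Prod.snd = some 0 ↔ (l' p).map Prod.snd = some 0 := by
      rw [← mem_Vs, ← mem_Vs, h2]
    have e4 : (l p).map Prod.snd = some 2 ↔ (l' p).map Prod.snd = some 2 := by
      rw [← mem_Vs, ← mem_Vs, h3]
    revert e2 e3 e4
    generalize l p = a
    generalize l' p = b
    revert a b
    decide
  · rintro ⟨⟨s, V⟩, X⟩ h
    rw [mem_sigma, mem_sigma, mem_powerset, mem_powerset] at h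
    obtain ⟨⟨hs, hV⟩, hX⟩ := h
    simp only at hs hV hX
    have e0 : ∀ p : Pr z y, (mk s V X p).map Prod.fst = lab s p := by
      intro p
      unfold mk
      cases lab s p <;> rfl
    have e1 : S1 (mk (z := z) (y := y) s V X) = s := by
      unfold S1
      simp only [e0]
      exact Dl_lab hs
    have e2 : Vs (mk (z := z) (y := y) s V X) 0 = V := by
      refine Ts_ext (Ts_sub _) (fun p hp => Tup_sub hs p (hV hp)) fun p => ?_
      rw [mem_Vs]
      unfold mk
      constructor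
      · intro h
        cases hl : lab s p with
        | none => rw [hl] at h; simp at h
        | some a =>
          rw [hl] at h
          by_contra hp
          simp only [Option.map_some, if_neg hp, Option.some.injEq] at h
          split_ifs at h <;> exact absurd h (by decide)
      · intro h
        have h1 := (mem_pf_iff hs p).1 (hV h)
        cases hl : lab s p with
        | none => rw [hl] at h1; simp at h1
        | some a => simp [h]
    have e3 : Vs (mk (z := z) (y := y) s V X) 2 = X := by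
      refine Ts_ext (Ts_sub _) (fun p hp => Tup_sub hs p (mem_sdiff.1 (hX hp)).1) fun p => ?_
      rw [mem_Vs]
      unfold mk
      constructor
      · intro h
        cases hl : lab s p with
        | none => rw [hl] at h; simp at h
        | some a =>
          rw [hl] at h
          by_contra hp
          simp only [Option.map_some, if_neg hp, Option.some.injEq] at h
          split_ifs at h <;> exact absurd h (by decide)
      · intro h
        have h1 := (mem_pf_iff hs p).1 (mem_sdiff.1 (hX h)).1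
        have h2 := (mem_sdiff.1 (hX h)).2
        cases hl : lab s p with
        | none => rw [hl] at h1; simp at h1
        | some a => simp [h, h2]
    refine ⟨mk s V X, mem_univ _, ?_⟩
    rw [e1, e2, e3]

/-! ### the weights -/

lemma prod_Ts (b : Pr z y → Bool) (f : ℕ → ℝ) :
    ∏ p ∈ Ts b, f p = ∏ p : Pr z y, if b p = true then f p else 1 := by
  unfold Ts
  rw [prod_map, prod_filter]
  rfl

lemma wt_nb (b : Pr z y → Bool) : (1 / 2 : ℝ) ^ (nb b).primeFactors.card / (nb b : ℝ) =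
    ∏ p : Pr z y, if b p = true then (1 / 2) / ((p : ℕ) : ℝ) else 1 := by
  rw [nb_pf]
  have h1 : (nb b : ℝ) = ∏ p : Pr z y, if b p = true then ((p : ℕ) : ℝ) else 1 := by
    rw [nb_eq_prod]
    push_cast
    rw [prod_Ts b fun p => (p : ℝ)]
  have h2 : (1 / 2 : ℝ) ^ (Ts b).card = ∏ p : Pr z y, if b p = true then (1 / 2 : ℝ) else 1 := by
    rw [← prod_const, prod_Ts b fun _ => (1 / 2 : ℝ)]
  rw [h1, h2, ← prod_div_distrib]
  refine prod_congr rfl fun p _ => ?_
  split_ifs <;> simp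

lemma wt_all (l : Pr z y → Option (Fin 3 × Fin 3)) :
    (1 / ((∏ i, S1 l i : ℕ) : ℝ)) * (1 / 2) ^ (∏ i, S1 l i).primeFactors.card =
      ∏ i, (1 / 2 : ℝ) ^ (Dl l i).primeFactors.card / (Dl l i) := by
  have h1 : ∀ i, (1 / 2 : ℝ) ^ (Dl l i).primeFactors.card / (Dl l i) =
      ∏ p : Pr z y, if l p = some i then (1 / 2) / ((p : ℕ) : ℝ) else 1 := by
    intro i
    unfold Dl
    rw [wt_nb]
    simp only [decide_eq_true_eq]
  rw [one_div_mul_eq_div, prod_S1, wt_nb, prod_congr rfl fun i _ => h1 i, prod_comm]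
  refine prod_congr rfl fun p _ => ?_
  cases h : l p with
  | none => simp
  | some j => simp

/-! ### the class of a prime -/

lemma dvd_S1 (l : Pr z y → Option (Fin 3 × Fin 3)) (p : Pr z y) (i : Fin 3) :
    (p : ℕ) ∣ S1 l i ↔ (l p).map Prod.fst = some i := by
  unfold S1 Dl
  rw [dvd_nb, decide_eq_true_iff]

lemma clf_S1 (l : Pr z y → Option (Fin 3 × Fin 3)) (p : Pr z y) (a : Fin 3 × Fin 3)
    (h : l p = some a) : clf (S1 l 0) (S1 l 1) p = a.1 := by
  unfold clf
  simp only [dvd_S1, h, Option.map_some, Option.some.injEq]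
  obtain ⟨i, t⟩ := a
  fin_cases i <;> simp

/-! ### symbols -/

lemma sz_nr {p q : ℕ} (hp : p.Prime) (hq : q.Prime) (h : p ≠ q) :
    sz (nr p (q : ℤ)) = Jr (q : ℤ) p := by
  have h1 : jacobiSym (q : ℤ) p = 1 ∨ jacobiSym (q : ℤ) p = -1 := by
    apply jacobiSym.eq_one_or_neg_one
    rw [Int.gcd_natCast_natCast]
    exact (Nat.coprime_primes hq hp).2 h.symm
  unfold nr Jr
  rcases h1 with h1 | h1
  · rw [h1, if_neg (by decide), sz_zero]
    norm_num
  · rw [h1, if_pos rfl, sz_one]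
    norm_num

lemma lam_eq {p : ℕ} (hp : Odd p) : lam p = if p % 4 = 3 then 1 else 0 := by
  unfold lam nr
  rw [jacobiSym.at_neg_one hp]
  rcases Nat.odd_mod_four_iff.1 (Nat.odd_iff.1 hp) with h | h
  · rw [ZMod.χ₄_nat_one_mod_four h, if_neg (by decide), if_neg (by omega)]
  · rw [ZMod.χ₄_nat_three_mod_four h, if_pos rfl, if_pos h]

lemma lam_prod (T : Finset ℕ) (hT : ∀ p ∈ T, Odd p) :
    Odd (∏ p ∈ T, p) ∧ ∑ p ∈ T, lam p = if (∏ p ∈ T, p) % 4 = 3 then 1 else 0 := by
  classical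
  induction T using Finset.induction_on with
  | empty => simp
  | insert a T ha ih =>
    obtain ⟨h1, h2⟩ := ih fun p hp => hT p (mem_insert_of_mem hp)
    have h3 := hT a (mem_insert_self a T)
    rw [prod_insert ha, sum_insert ha, h2, lam_eq h3]
    refine ⟨h3.mul h1, ?_⟩
    have e1 : (1 : ZMod 2) + 1 = 0 := by decide
    rcases Nat.odd_mod_four_iff.1 (Nat.odd_iff.1 h1) with h | h <;>
      rcases Nat.odd_mod_four_iff.1 (Nat.odd_iff.1 h3) with h' | h' <;>
      simp [Nat.mul_mod, h, h', e1]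

/-! ### the product -/

/-- links of a row and a column, symbol `(column / row)` -/
def LA1 (o : Bool) (i j : Fin 3 × Fin 3) : Bool :=
  decide (i.1 ≠ j.1) && (decide (i.2 = 2) && decide (j.2 = 0) && xor (decide (i.1 < j.1)) o)

/-- links of a row and a column, symbol `(row / column)` -/
def LB1 (o : Bool) (i j : Fin 3 × Fin 3) : Bool :=
  decide (i.1 ≠ j.1) && (decide (i.2 = 2) && decide (j.2 = 0) && !(xor (decide (i.1 < j.1)) o))

/-- links of a row and a column of class 1 -/
def LC1 (i j : Fin 3 × Fin 3) : Bool := decide (i = (1, 2)) && decide (j = (1, 0))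

lemma lk_LL (o : Bool) (a b : Option (Fin 3 × Fin 3)) (x : ℝ) :
    (if lk (LL o) b a = true then x else 1) =
      (if lk (LA1 o) a b = true then x else 1) * (if lk (LB1 o) b a = true then x else 1) := by
  have h : (lk (LL o) b a = true ∧ lk (LA1 o) a b = true ∧ lk (LB1 o) b a = false) ∨
      (lk (LL o) b a = true ∧ lk (LA1 o) a b = false ∧ lk (LB1 o) b a = true) ∨
      (lk (LL o) b a = false ∧ lk (LA1 o) a b = false ∧ lk (LB1 o) b a = false) := by
    revert o a b
    decide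
  rcases h with ⟨h1, h2, h3⟩ | ⟨h1, h2, h3⟩ | ⟨h1, h2, h3⟩ <;> simp [h1, h2, h3]

lemma Sym_eq (o : Bool) (l : Pr z y → Option (Fin 3 × Fin 3)) :
    Pool.Agent.W262.RK.Sym (LL o) (fun _ => 1) (Dl l) =
      ∏ p : Pr z y, ∏ q : Pr z y, ((if lk (LA1 o) (l p) (l q) = true then Jr (q : ℕ) p else 1) *
        (if lk (LB1 o) (l p) (l q) = true then Jr (p : ℕ) q else 1)) := by
  rw [Sym_Dl]
  have h1 : ∏ p : Pr z y, (l p).elim (1 : ℝ) (fun _ => Jr 1 p) = 1 := by
    refine prod_eq_one fun p _ => ?_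
    cases l p with
    | none => rfl
    | some a => exact Pool.Agent.W108.RK.Jr_one_left _
  rw [h1, mul_one]
  simp only [lk_LL, prod_mul_distrib]
  congr 1
  rw [prod_comm]

lemma sg1_eq (hz : 2 ≤ z) (l : Pr z y → Option (Fin 3 × Fin 3)) :
    sg1 (Dl l) = ∏ p : Pr z y, ∏ q : Pr z y,
      if lk LC1 (l p) (l q) = true then sz (lam p * lam q) else 1 := by
  have hodd : ∀ b : Pr z y → Bool, ∀ p ∈ Ts b, Odd p := by
    intro b p hp
    have h1 := Ts_sub b p hp
    unfold PS at h1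
    rw [mem_filter, mem_Ioc] at h1
    exact h1.2.odd_of_ne_two (by omega)
  have h1 : ∀ a : Fin 3 × Fin 3, ∑ p ∈ Ts (fun p => decide (l p = some a)), lam p =
      if Dl l a % 4 = 3 then 1 else 0 := by
    intro a
    rw [(lam_prod _ (hodd _)).2]
    unfold Dl
    rw [← nb_eq_prod]
  have h2 : ∏ p : Pr z y, ∏ q : Pr z y, (if lk LC1 (l p) (l q) = true then
      sz (lam p * lam q) else 1) = ∏ p ∈ Ts (fun p => decide (l p = some (1, 2))),
        ∏ q ∈ Ts (fun p => decide (l p = some (1, 0))), sz (lam p * lam q) := by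
    rw [prod_Ts]
    refine prod_congr rfl fun p _ => ?_
    rw [prod_Ts]
    by_cases hp : l p = some (1, 2)
    · rw [if_pos (by rw [hp]; decide)]
      refine prod_congr rfl fun q _ => ?_
      refine if_congr ?_ rfl rfl
      rw [hp]
      cases l q with
      | none => simp [lk]
      | some a => simp [lk, LC1]
    · rw [if_neg (by rw [decide_eq_true_iff]; exact hp)]
      refine prod_eq_one fun q _ => ?_
      rw [if_neg]
      cases h : l p with
      | none => simp [lk]
      | some a =>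
        rw [h] at hp
        cases l q with
        | none => simp [lk]
        | some b =>
          simp only [lk, LC1, Option.elim]
          rw [decide_eq_false (fun h' => hp (by rw [h']))]
          simp
  rw [h2]
  simp only [← sz_sum, ← mul_sum, ← sum_mul]
  rw [h1, h1]
  unfold sg1
  by_cases a1 : Dl l (1, 0) % 4 = 3 <;> by_cases a2 : Dl l (1, 2) % 4 = 3 <;>
    simp [a1, a2, sz_one, sz_zero]

lemma prod_term (hz : 2 ≤ z) (o : Bool) (l : Pr z y → Option (Fin 3 × Fin 3)) :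
    ∏ p ∈ Vs l 2, ∏ q ∈ Vs l 0, sz (en o (clf (S1 l 0) (S1 l 1)) 0 p q) =
      sg1 (Dl l) * Pool.Agent.W262.RK.Sym (LL o) (fun _ => 1) (Dl l) := by
  rw [sg1_eq hz, Sym_eq, ← prod_mul_distrib]
  unfold Vs
  rw [prod_Ts]
  refine prod_congr rfl fun p _ => ?_
  rw [← prod_mul_distrib, prod_Ts]
  by_cases hp : (l p).map Prod.snd = some 2
  swap
  · rw [if_neg (by rw [decide_eq_true_iff]; exact hp)]
    symm
    refine prod_eq_one fun q _ => ?_
    revert hp
    generalize l p = a
    generalize l q = b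
    intro hp
    have h : lk LC1 a b = false ∧ lk (LA1 o) a b = false ∧ lk (LB1 o) a b = false := by
      revert hp
      revert o a b
      decide
    simp [h.1, h.2.1, h.2.2]
  rw [if_pos (by rw [decide_eq_true_iff]; exact hp)]
  refine prod_congr rfl fun q _ => ?_
  by_cases hq : (l q).map Prod.snd = some 0
  swap
  · rw [if_neg (by rw [decide_eq_true_iff]; exact hq)]
    symm
    revert hq
    generalize l p = a
    generalize l q = b
    intro hp
    have h : lk LC1 a b = false ∧ lk (LA1 o) a b = false ∧ lk (LB1 o) a b = false := by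
      revert hp
      revert o a b
      decide
    simp [h.1, h.2.1, h.2.2]
  rw [if_pos (by rw [decide_eq_true_iff]; exact hq)]
  have hpq : (p : ℕ) ≠ q := by
    intro h
    have h' : p = q := Subtype.ext h
    rw [h', hq] at hp
    exact absurd (Option.some.inj hp) (by decide)
  obtain ⟨a, ha1, ha2⟩ := Option.map_eq_some_iff.1 hp
  obtain ⟨b, hb1, hb2⟩ := Option.map_eq_some_iff.1 hq
  unfold en
  rw [if_neg hpq, clf_S1 l p a ha1, clf_S1 l q b hb1, ha1, hb1]
  obtain ⟨a1, a2⟩ := a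
  obtain ⟨b1, b2⟩ := b
  simp only at ha2 hb2
  subst ha2 hb2
  simp only [lk, Option.elim, LC1, LA1, LB1]
  have e1 := sz_nr (Pr_prime p) (Pr_prime q) hpq
  have e2 := sz_nr (Pr_prime q) (Pr_prime p) hpq.symm
  by_cases h1 : a1 = b1
  · subst h1
    by_cases h2 : a1 = 1
    · subst h2
      simp
    · simp [h2, sz_zero]
  · rw [if_neg h1]
    have h3 : ¬ (a1 = 1 ∧ b1 = 1) := fun h => h1 (h.1.trans h.2.symm)
    cases h4 : xor (decide (a1 < b1)) o
    · simp [h1, e2, h3]
    · simp [h1, e1, h3]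

/-- **(10)** the average of `2 ^ corank` over the bits as a sum of symbols -/
theorem avg : S_AVG := by
  intro o z y hz
  have h1 : ∀ s ∈ Tup (Fin 3) z y, (1 / ((∏ i, s i : ℕ) : ℝ)) *
      ((1 / 2) ^ (∏ i, s i).primeFactors.card *
        ∑ E ∈ (∏ i, s i).primeFactors.powerset, (2 : ℝ) ^ corkS o s E) =
      ∑ V ∈ (∏ i, s i).primeFactors.powerset, ∑ X ∈ ((∏ i, s i).primeFactors \ V).powerset,
        ((1 / ((∏ i, s i : ℕ) : ℝ)) * (1 / 2) ^ (∏ i, s i).primeFactors.card) *
          ∏ p ∈ X, ∏ q ∈ V, sz (en o (clf (s 0) (s 1)) 0 p q) := by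
    intro s _
    unfold corkS
    rw [expand, ← mul_assoc, mul_sum]
    refine sum_congr rfl fun V _ => ?_
    rw [mul_sum]
  rw [sum_congr rfl h1, sum_lab fun s V X =>
    ((1 / ((∏ i, s i : ℕ) : ℝ)) * (1 / 2) ^ (∏ i, s i).primeFactors.card) *
          ∏ p ∈ X, ∏ q ∈ V, sz (en o (clf (s 0) (s 1)) 0 p q), sum_Tup]
  refine sum_congr rfl fun l _ => ?_
  rw [wt_all, prod_term hz]

end Pool.Agent.L0h51.RZ
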